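import Pool.Agent.Y217.PB.Stm

/-!
# Project PB: the count (PB-I)
-/

set_option autoImplicit false

universe u

namespace Pool.Agent.Y38.PB

open Set
open Pool.Agent.Helper775.Surf Pool.Agent.Helper775.Clo
open Pool.Agent.Y217.PB

section dc

variable {α : Type u} {κ : Type}

theorem dc_le [Fintype κ] (S : Set α) (R : α → κ → Prop)
    [DecidableEq α] [∀ C, DecidablePred (R C)]
    (h3 : ∀ C ∈ S, 3 ≤ (Finset.univ.filter (R C)).card)
    (h2 : ∀ k, ∀ C₁ ∈ S, ∀ C₂ ∈ S, ∀ C₃ ∈ S, R C₁ k → R C₂ k → R C₃ k →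
      C₁ = C₂ ∨ C₁ = C₃ ∨ C₂ = C₃) (s : Finset α) (hs : ∀ C ∈ s, C ∈ S) :
    ∑ C ∈ s, 3 ≤ ∑ C ∈ s, (Finset.univ.filter (R C)).card ∧
    ∑ C ∈ s, (Finset.univ.filter (R C)).card =
      ∑ k : κ, (s.filter (fun C => R C k)).card ∧
    ∀ k : κ, (s.filter (fun C => R C k)).card ≤ 2 := by
  refine ⟨Finset.sum_le_sum fun C hC => h3 C (hs C hC), ?_, ?_⟩
  · have := Finset.sum_card_bipartiteAbove_eq_sum_card_bipartiteBelow (s := s)
      (t := (Finset.univ : Finset κ)) R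
    simpa [Finset.bipartiteAbove, Finset.bipartiteBelow] using this
  · intro k
    by_contra hlt
    push Not at hlt
    obtain ⟨C₁, C₂, C₃, m1, m2, m3, n12, n13, n23⟩ := Finset.two_lt_card_iff.1 hlt
    rw [Finset.mem_filter] at m1 m2 m3
    rcases h2 k C₁ (hs _ m1.1) C₂ (hs _ m2.1) C₃ (hs _ m3.1) m1.2 m2.2 m3.2 with h | h | h
    · exact n12 h
    · exact n13 h
    · exact n23 h

/-- double counting -/
theorem dc [Fintype κ] (S : Set α) (R : α → κ → Prop) [∀ C, DecidablePred (R C)]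
    (h3 : ∀ C ∈ S, 3 ≤ (Finset.univ.filter (R C)).card)
    (h2 : ∀ k, ∀ C₁ ∈ S, ∀ C₂ ∈ S, ∀ C₃ ∈ S, R C₁ k → R C₂ k → R C₃ k →
      C₁ = C₂ ∨ C₁ = C₃ ∨ C₂ = C₃) :
    S.Finite ∧ 3 * S.ncard ≤ 2 * Fintype.card κ ∧
      (3 * S.ncard = 2 * Fintype.card κ → (∀ C ∈ S, (Finset.univ.filter (R C)).card = 3) ∧
        ∀ k, ∃ C₁ ∈ S, ∃ C₂ ∈ S, C₁ ≠ C₂ ∧ R C₁ k ∧ R C₂ k) := by
  classical
  have hle : ∀ s : Finset α, (∀ C ∈ s, C ∈ S) → 3 * s.card ≤ 2 * Fintype.card κ := by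
    intro s hs
    obtain ⟨a1, a2, a3⟩ := dc_le S R h3 h2 s hs
    have a4 : ∑ k : κ, (s.filter (fun C => R C k)).card ≤ ∑ k : κ, 2 :=
      Finset.sum_le_sum fun k _ => a3 k
    have a5 : ∑ C ∈ s, 3 = 3 * s.card := by rw [Finset.sum_const, smul_eq_mul, mul_comm]
    have a6 : ∑ k : κ, 2 = 2 * Fintype.card κ := by
      rw [Finset.sum_const, smul_eq_mul, mul_comm]; rfl
    omega
  have hfin : S.Finite := by
    by_contra hinf
    obtain ⟨s, hs, hcard⟩ := Set.Infinite.exists_subset_card_eq hinf (2 * Fintype.card κ + 1)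
    have := hle s (fun C hC => hs hC)
    omega
  have hnc : S.ncard = hfin.toFinset.card := Set.ncard_eq_toFinset_card S hfin
  have hs : ∀ C ∈ hfin.toFinset, C ∈ S := fun C hC => hfin.mem_toFinset.1 hC
  refine ⟨hfin, by rw [hnc]; exact hle _ hs, ?_⟩
  intro heq
  obtain ⟨a1, a2, a3⟩ := dc_le S R h3 h2 _ hs
  have a4 : ∑ k : κ, (hfin.toFinset.filter (fun C => R C k)).card ≤ ∑ k : κ, 2 :=
    Finset.sum_le_sum fun k _ => a3 k
  have a5 : ∑ C ∈ hfin.toFinset, 3 = 3 * hfin.toFinset.card := by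
    rw [Finset.sum_const, smul_eq_mul, mul_comm]
  have a6 : ∑ k : κ, 2 = 2 * Fintype.card κ := by
    rw [Finset.sum_const, smul_eq_mul, mul_comm]; rfl
  constructor
  · intro C hC
    have b1 : ∑ C ∈ hfin.toFinset, 3 =
        ∑ C ∈ hfin.toFinset, (Finset.univ.filter (R C)).card := by omega
    have b2 := (Finset.sum_eq_sum_iff_of_le (fun C hC => h3 C (hs C hC))).1 b1
    exact (b2 C (hfin.mem_toFinset.2 hC)).symm
  · intro k
    have b1 : ∑ k : κ, (hfin.toFinset.filter (fun C => R C k)).card = ∑ k : κ, 2 := by omega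
    have b2 := (Finset.sum_eq_sum_iff_of_le (fun k _ => a3 k)).1 b1 k (Finset.mem_univ k)
    obtain ⟨C₁, C₂, hne, hC⟩ := Finset.card_eq_two.1 b2
    have c1 : C₁ ∈ hfin.toFinset.filter (fun C => R C k) := by rw [hC]; simp
    have c2 : C₂ ∈ hfin.toFinset.filter (fun C => R C k) := by rw [hC]; simp
    rw [Finset.mem_filter] at c1 c2
    exact ⟨C₁, hs _ c1.1, C₂, hs _ c2.1, hne, c1.2, c2.2⟩

end dc

theorem tri_ne {M : Type u} {ι κ : Type} (Γ : FGraph M ι κ) (k₁ k₂ k₃ : κ)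
    (h : Γ.Tri k₁ k₂ k₃) : k₁ ≠ k₂ ∧ k₁ ≠ k₃ ∧ k₂ ≠ k₃ := by
  obtain ⟨i₁, i₂, i₃, n12, n23, n31, e1, e2, e3⟩ := h
  refine ⟨?_, ?_, ?_⟩
  · rintro rfl
    have : i₁ ∈ ({i₂, i₃} : Set ι) := by rw [← e2, e1]; simp
    simp only [mem_insert_iff, mem_singleton_iff] at this
    rcases this with h | h
    · exact n12 h
    · exact n31 h.symm
  · rintro rfl
    have : i₂ ∈ ({i₃, i₁} : Set ι) := by rw [← e3, e1]; simp
    simp only [mem_insert_iff, mem_singleton_iff] at this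
    rcases this with h | h
    · exact n23 h
    · exact n12 h.symm
  · rintro rfl
    have : i₂ ∈ ({i₃, i₁} : Set ι) := by rw [← e3, e2]; simp
    simp only [mem_insert_iff, mem_singleton_iff] at this
    rcases this with h | h
    · exact n23 h
    · exact n12 h.symm

theorem count (hE : JEuler.{u}) (hT : JTwo.{u}) (hH : JThree.{u}) : JCount.{u} := by
  classical
  intro M _ _ _ _ _ _ N f hf ι κ _ _ Γ hΓ h4
  have key : ∀ C ∈ comps Γ.pts, (Finset.univ.filter (fun k => Γ.Adj C k)).card ≤ 3 →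
      (Finset.univ.filter (fun k => Γ.Adj C k)).card = 3 ∧
      ∃ k₁ k₂ k₃ : κ, Γ.Tri k₁ k₂ k₃ ∧ ∀ k, Γ.Adj C k ↔ k = k₁ ∨ k = k₂ ∨ k = k₃ := by
    intro C hC hle
    obtain ⟨k₁, k₂, k₃, hk, htri⟩ := hH M N f hf ι κ Γ hΓ C hC
      (Finset.univ.filter (fun k => Γ.Adj C k)) (fun k hk => by simpa using hk) hle (by omega)
    obtain ⟨n12, n13, n23⟩ := tri_ne Γ k₁ k₂ k₃ htri
    refine ⟨?_, k₁, k₂, k₃, htri, ?_⟩
    · have : Finset.univ.filter (fun k => Γ.Adj C k) = {k₁, k₂, k₃} := by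
        apply Finset.coe_injective
        rw [hk]
        simp
      rw [this]
      exact Finset.card_eq_three.2 ⟨k₁, k₂, k₃, n12, n13, n23, rfl⟩
    · intro k
      have h1 : k ∈ ((Finset.univ.filter (fun k => Γ.Adj C k) : Finset κ) : Set κ) ↔
          k ∈ ({k₁, k₂, k₃} : Set κ) := by rw [hk]
      simpa using h1
  have h3 : ∀ C ∈ comps Γ.pts, 3 ≤ (Finset.univ.filter (fun k => Γ.Adj C k)).card := by
    intro C hC
    by_contra hlt
    push Not at hlt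
    have := (key C hC (by omega)).1
    omega
  obtain ⟨hfin, hle, heq⟩ := dc (comps Γ.pts) (fun C k => Γ.Adj C k) h3
    (fun k C₁ h1 C₂ h2 C₃ h3 a1 a2 a3 => hT M N f hf ι κ Γ hΓ k C₁ h1 C₂ h2 C₃ h3 a1 a2 a3)
  have hEu := hE M N f hf ι κ Γ hΓ hfin (by omega)
  refine ⟨hfin, by omega, ?_⟩
  intro h
  obtain ⟨b1, b2⟩ := heq (by omega)
  exact ⟨fun C hC => (key C hC (b1 C hC).le).2, b2⟩

end Pool.Agent.Y38.PB
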