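import Pool.Agent.Y217.PB.Stm

/-!
# Project PB: simplices (PB-R45)
-/

set_option autoImplicit false

namespace Pool.Agent.Y38.PB

open Set
open scoped InnerProductSpace
open Pool.Agent.Y217.PB

/-- `N + 1` affinely independent points form an affine basis -/
noncomputable def bas {N : ℕ} (a : Fin (N + 1) → EuclideanSpace ℝ (Fin N))
    (h : AffineIndependent ℝ a) : AffineBasis (Fin (N + 1)) ℝ (EuclideanSpace ℝ (Fin N)) :=
  ⟨a, h, by
    rw [h.affineSpan_eq_top_iff_card_eq_finrank_add_one]
    simp⟩

theorem bas_apply {N : ℕ} (a : Fin (N + 1) → EuclideanSpace ℝ (Fin N))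
    (h : AffineIndependent ℝ a) (i : Fin (N + 1)) : bas a h i = a i := rfl

theorem bas_coe {N : ℕ} (a : Fin (N + 1) → EuclideanSpace ℝ (Fin N))
    (h : AffineIndependent ℝ a) : (bas a h : Fin (N + 1) → EuclideanSpace ℝ (Fin N)) = a := rfl

theorem hull_coord {N : ℕ} (a : Fin (N + 1) → EuclideanSpace ℝ (Fin N))
    (h : AffineIndependent ℝ a) (T : Set (Fin (N + 1))) :
    convexHull ℝ (a '' T) =
      {x | ∀ i, 0 ≤ (bas a h).coord i x ∧ (i ∉ T → (bas a h).coord i x = 0)} := by
  classical
  apply Subset.antisymm
  · apply convexHull_min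
    · rintro x ⟨j, hj, rfl⟩ i
      have hx : (bas a h).coord i (a j) = if i = j then 1 else 0 := by
        rw [← bas_apply a h j, AffineBasis.coord_apply]
      rw [hx]
      constructor
      · split_ifs <;> norm_num
      · intro hi
        rw [if_neg]
        rintro rfl
        exact hi hj
    · intro x hx y hy s t hs ht hst i
      have hxy : (bas a h).coord i (s • x + t • y) =
          s * (bas a h).coord i x + t * (bas a h).coord i y := by
        have := Convex.combo_affine_apply (f := (bas a h).coord i) (x := x) (y := y) hst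
        simpa [smul_eq_mul] using this
      rw [hxy]
      refine ⟨?_, ?_⟩
      · have h1 := mul_nonneg hs (hx i).1
        have h2 := mul_nonneg ht (hy i).1
        linarith
      · intro hi
        rw [(hx i).2 hi, (hy i).2 hi]
        ring
  · intro x hx
    have h1 : ∑ i, (bas a h).coord i x • a i = x := (bas a h).linear_combination_coord_eq_self x
    have h2 : ∑ i, (bas a h).coord i x = 1 := (bas a h).sum_coord_apply_eq_one x
    have h3 : ∑ i ∈ Finset.univ.filter (fun i => i ∈ T), (bas a h).coord i x • a i = x := by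
      refine Eq.trans ?_ h1
      rw [Finset.sum_filter]
      apply Finset.sum_congr rfl
      intro i _
      split_ifs with hi
      · rfl
      · rw [(hx i).2 hi, zero_smul]
    have h4 : ∑ i ∈ Finset.univ.filter (fun i => i ∈ T), (bas a h).coord i x = 1 := by
      rw [← h2, Finset.sum_filter]
      apply Finset.sum_congr rfl
      intro i _
      split_ifs with hi
      · rfl
      · rw [(hx i).2 hi]
    rw [← h3]
    apply (convex_convexHull ℝ (a '' T)).sum_mem
    · intro i _
      exact (hx i).1
    · exact h4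
    · intro i hi
      exact subset_convexHull ℝ _ ⟨i, (Finset.mem_filter.1 hi).2, rfl⟩

theorem simplexFace : JSimplexFace := by
  classical
  intro N a h
  have hr : convexHull ℝ (range a) = {x | ∀ i, 0 ≤ (bas a h).coord i x} := by
    rw [← (bas a h).convexHull_eq_nonneg_coord, bas_coe]
  have hface : ∀ T : Set (Fin (N + 1)), ∃ (n : EuclideanSpace ℝ (Fin N)) (m : ℝ),
      (∀ x ∈ convexHull ℝ (range a), ⟪n, x⟫_ℝ ≤ m) ∧
      {x | x ∈ convexHull ℝ (range a) ∧ ⟪n, x⟫_ℝ = m} = convexHull ℝ (a '' T) := by
    intro T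
    let g : EuclideanSpace ℝ (Fin N) →ᵃ[ℝ] ℝ :=
      ∑ i ∈ Finset.univ.filter (fun i => i ∈ T), (bas a h).coord i
    have hg : ∀ x, g x = ∑ i ∈ Finset.univ.filter (fun i => i ∈ T), (bas a h).coord i x := by
      intro x
      have : ∀ s : Finset (Fin (N + 1)),
          (∑ i ∈ s, (bas a h).coord i : EuclideanSpace ℝ (Fin N) →ᵃ[ℝ] ℝ) x =
            ∑ i ∈ s, (bas a h).coord i x := by
        intro s
        induction s using Finset.induction_on with
        | empty => simp
        | insert j s hj ih => rw [Finset.sum_insert hj, Finset.sum_insert hj, ← ih]; rfl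
      exact this _
    let n : EuclideanSpace ℝ (Fin N) :=
      (InnerProductSpace.toDual ℝ (EuclideanSpace ℝ (Fin N))).symm
        (LinearMap.toContinuousLinearMap g.linear)
    have hn : ∀ x, ⟪n, x⟫_ℝ = g x - g 0 := by
      intro x
      have h1 : ⟪n, x⟫_ℝ = g.linear x := by
        simp only [n, InnerProductSpace.toDual_symm_apply]
        rfl
      rw [h1]
      have h2 := g.linearMap_vsub x 0
      simpa using h2
    have hsum : ∀ x, g x + ∑ i ∈ Finset.univ.filter (fun i => i ∉ T), (bas a h).coord i x = 1 := by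
      intro x
      rw [hg, Finset.sum_filter_add_sum_filter_not]
      exact (bas a h).sum_coord_apply_eq_one x
    refine ⟨n, 1 - g 0, ?_, ?_⟩
    · intro x hx
      rw [hr] at hx
      rw [hn]
      have h1 : 0 ≤ ∑ i ∈ Finset.univ.filter (fun i => i ∉ T), (bas a h).coord i x :=
        Finset.sum_nonneg fun i _ => hx i
      have h2 := hsum x
      linarith
    · rw [hull_coord a h T, hr]
      ext x
      simp only [mem_setOf_eq]
      constructor
      · rintro ⟨hx, hx1⟩ i
        refine ⟨hx i, fun hi => ?_⟩
        rw [hn] at hx1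
        have h2 := hsum x
        have h3 : ∑ i ∈ Finset.univ.filter (fun i => i ∉ T), (bas a h).coord i x = 0 := by
          linarith
        exact (Finset.sum_eq_zero_iff_of_nonneg (fun i _ => hx i)).1 h3 i (by simpa using hi)
      · intro hx
        refine ⟨fun i => (hx i).1, ?_⟩
        rw [hn]
        have h2 := hsum x
        have h3 : ∑ i ∈ Finset.univ.filter (fun i => i ∉ T), (bas a h).coord i x = 0 :=
          Finset.sum_eq_zero fun i hi => (hx i).2 (by simpa using hi)
        linarith
  refine ⟨?_, hface⟩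
  apply Subset.antisymm extremePoints_convexHull_subset
  rintro _ ⟨i, rfl⟩
  obtain ⟨n, m, hm, hT⟩ := hface {i}
  rw [image_singleton, convexHull_singleton] at hT
  have hi : a i ∈ {x | x ∈ convexHull ℝ (range a) ∧ ⟪n, x⟫_ℝ = m} := by rw [hT]; rfl
  refine ⟨hi.1, ?_⟩
  rintro x hx y hy ⟨s, t, hs, ht, hst, hxy⟩
  have h1 : s * ⟪n, x⟫_ℝ + t * ⟪n, y⟫_ℝ = m := by
    rw [← hi.2, ← hxy, inner_add_right, inner_smul_right, inner_smul_right]
  have hx' : ⟪n, x⟫_ℝ = m := by
    apply le_antisymm (hm x hx)
    by_contra hlt
    push Not at hlt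
    have h2 := mul_lt_mul_of_pos_left hlt hs
    have h3 := mul_le_mul_of_nonneg_left (hm y hy) ht.le
    have h4 : s * m + t * m = m := by rw [← add_mul, hst, one_mul]
    linarith
  have : x ∈ {x | x ∈ convexHull ℝ (range a) ∧ ⟪n, x⟫_ℝ = m} := ⟨hx, hx'⟩
  rw [hT] at this
  exact this

theorem simplex : JSimplex := by
  classical
  intro N K hK hc hint hcard
  have hfin : (extremePoints ℝ K).Finite := Set.finite_of_ncard_ne_zero (by omega)
  have hKV : K = convexHull ℝ (extremePoints ℝ K) := by
    have h1 := closure_convexHull_extremePoints hK hc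
    rw [(hfin.isCompact_convexHull (𝕜 := ℝ)).isClosed.closure_eq] at h1
    exact h1.symm
  have hF : Finite (extremePoints ℝ K) := hfin
  have : Fintype (extremePoints ℝ K) := Fintype.ofFinite _
  have hcard' : Fintype.card (extremePoints ℝ K) = N + 1 := by
    rw [← Nat.card_eq_fintype_card]; exact hcard
  let e := Fintype.equivFinOfCardEq hcard'
  let a : Fin (N + 1) → EuclideanSpace ℝ (Fin N) := fun i => (e.symm i).1
  have ha : range a = extremePoints ℝ K := by
    ext x
    constructor
    · rintro ⟨i, rfl⟩
      exact (e.symm i).2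
    · intro hx
      exact ⟨e ⟨x, hx⟩, by simp [a]⟩
  refine ⟨a, ?_, ha, by rw [ha]; exact hKV⟩
  rw [affineIndependent_iff_finrank_vectorSpan_eq (n := N) ℝ a (by simp)]
  have htop : affineSpan ℝ (range a) = ⊤ := by
    rw [ha, ← interior_convexHull_nonempty_iff_affineSpan_eq_top, ← hKV]
    exact hint
  rw [← direction_affineSpan, htop, AffineSubspace.direction_top, finrank_top]
  simp

end Pool.Agent.Y38.PB
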